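import Mathlib
import Pool.Agent.HochPhi.Stmt
import Pool.Agent.HochPhi.Glue

/-! MP_067393_an, Q1: there is a non-amenable polynormed algebra all of whose higher Hochschild
homology groups vanish, for every bimodule.  (The algebra is the space of finitely supported
sequences with pointwise multiplication and the finest locally convex topology.) -/

namespace Pool.Agent.Results.MP_067393_an.NonAmenable

open Pool.Agent.HochPhi.Stmt

theorem result : ∃ 𝒜 : PolyAlg,
    (∀ M : Bimod 𝒜, Nonempty (HComplex M) ∧ ∀ (C : HComplex M) (k : ℕ), VanishSucc C k) ∧
      ¬ Amenable 𝒜 :=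
  Pool.Agent.HochPhi.Glue.main

end Pool.Agent.Results.MP_067393_an.NonAmenable
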